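import Pool.Agent.Helper4.SQ.GoalsL

set_option autoImplicit false
set_option linter.unusedSectionVars false

namespace Pool.Agent.Helper7.SQ

open Pool.Agent.Helper19.SQ Pool.Agent.Helper4.SQ

theorem cast_inj' {l : ℕ} [NeZero l] {a b : ℕ} (ha : a < l) (hb : b < l) :
    ((a : ZMod l) = (b : ZMod l)) ↔ a = b := by
  constructor
  · intro h
    have := congrArg ZMod.val h
    rwa [ZMod.val_natCast_of_lt ha, ZMod.val_natCast_of_lt hb] at this
  · intro h
    rw [h]

theorem val_lt_of_ne {l : ℕ} [NeZero l] (hl : 2 ≤ l) {c : ZMod l} (hc : c ≠ -1) :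
    c.val < l - 1 := by
  have h1 : c.val < l := ZMod.val_lt c
  rcases Nat.lt_or_ge c.val (l - 1) with h | h
  · exact h
  · exfalso
    apply hc
    have h2 : c.val + 1 = l := by omega
    have h3 : ((c.val + 1 : ℕ) : ZMod l) = 0 := by
      rw [h2]
      exact ZMod.natCast_self l
    push_cast at h3
    rw [ZMod.natCast_zmod_val] at h3
    exact eq_neg_of_add_eq_zero_left h3

theorem val_succ {l : ℕ} [NeZero l] (hl : 2 ≤ l) {c : ZMod l} (hc : c ≠ -1) :
    (c + 1).val = c.val + 1 := by
  have h1 := val_lt_of_ne hl hc
  have h2 : c + 1 = ((c.val + 1 : ℕ) : ZMod l) := by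
    push_cast
    rw [ZMod.natCast_zmod_val]
  rw [h2, ZMod.val_natCast_of_lt (by omega)]

section serre

variable {l : ℕ} [NeZero l] {V : Type} [AddCommGroup V] [Module ℂ V]

theorem serre_aux (hl : 4 ≤ l) (G : ZMod l → Module.End ℂ V)
    (h4 : ∀ c c' : ZMod l, c' ≠ c → c' ≠ c + 1 → c' ≠ c - 1 → ⁅G c, G c'⁆ = 0)
    (h6 : ∀ c c' : ZMod l, (c' = c + 1 ∨ c' = c - 1) → ⁅G c, ⁅G c, G c'⁆⁆ = 0) :
    SerreRel (1 : ℂ) (fun i : ℕ => if i < l - 1 then G (i : ZMod l) else 0) := by
  have key : ∀ x y : Module.End ℂ V, ⁅x, ⁅x, y⁆⁆ = 0 →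
      x ^ 2 * y - ((1 : ℂ) + (1 : ℂ)⁻¹) • (x * y * x) + y * x ^ 2 = 0 := by
    intro x y h
    simp only [Ring.lie_def] at h
    have h2 : ((1 : ℂ) + (1 : ℂ)⁻¹) = 2 := by norm_num
    rw [h2, two_smul, ← h]
    noncomm_ring
  refine ⟨?_, ?_, ?_⟩
  · intro i j hij
    by_cases hj : j < l - 1
    · have hi : i < l - 1 := by omega
      simp only [hi, hj, if_true]
      have h := h4 (i : ZMod l) (j : ZMod l) ?_ ?_ ?_
      · rw [Ring.lie_def] at h
        exact sub_eq_zero.mp h
      · intro h
        rw [cast_inj' (by omega) (by omega)] at h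
        omega
      · intro h
        have h' : ((j : ℕ) : ZMod l) = ((i + 1 : ℕ) : ZMod l) := by
          push_cast
          exact h
        rw [cast_inj' (by omega) (by omega)] at h'
        omega
      · intro h
        have h' : ((j + 1 : ℕ) : ZMod l) = ((i : ℕ) : ZMod l) := by
          push_cast
          rw [h]
          ring
        rw [cast_inj' (by omega) (by omega)] at h'
        omega
    · simp only [hj, if_false, mul_zero, zero_mul]
  · intro i
    by_cases hj : i + 1 < l - 1
    · have hi : i < l - 1 := by omega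
      simp only [hi, hj, if_true]
      apply key
      apply h6
      left
      push_cast
      rfl
    · simp only [hj, if_false, mul_zero, zero_mul, smul_zero, sub_zero, add_zero]
  · intro i
    by_cases hj : i + 1 < l - 1
    · have hi : i < l - 1 := by omega
      simp only [hi, hj, if_true]
      apply key
      apply h6
      right
      push_cast
      ring
    · simp only [hj, if_false]
      simp

end serre

theorem sMU (hMUA : S_MUA) (hMRY : S_MRY) (hUP0 : S_UP0) : S_MU := by
  intro l _ V _ _ T hl
  obtain ⟨⟨-, f4, -, f6⟩, ⟨-, e4, -, e6⟩⟩ := hMRY l V T (by omega)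
  have hN : l - 1 < l := by omega
  obtain ⟨e, he1, he2, he3⟩ := hMUA (Module.End ℂ V) (l - 1)
    (fun i : ℕ => if i < l - 1 then T.E (i : ZMod l) 0 else 0)
    (fun i : ℕ => if i < l - 1 then T.F (i : ZMod l) 0 else 0)
    (fun i : ℕ => if i ≤ l - 1 then T.h (i : ZMod l) else 0)
    (serre_aux hl (fun c => T.E c 0) (fun c c' h1 h2 h3 => e4 c c' 0 0 h1 h2 h3)
      (fun c c' h => e6 c c' 0 0 0 h))
    (serre_aux hl (fun c => T.F c 0) (fun c c' h1 h2 h3 => f4 c c' 0 0 h1 h2 h3)
      (fun c c' h => f6 c c' 0 0 0 h))
    (by
      intro i hi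
      have : ¬ i < l - 1 := by omega
      simp only [this, if_false, and_self])
    (by
      intro i j hi hj
      have h1 : i ≤ l - 1 := by omega
      have h2 : i + 1 ≤ l - 1 := by omega
      simp only [hi, hj, h1, h2, if_true]
      rw [T.EF, Nat.add_zero, T.H0]
      by_cases h : i = j
      · rw [if_pos (by rw [h]), if_pos h]
        push_cast
        rfl
      · rw [if_neg (fun h' => h ((cast_inj' (by omega) (by omega)).mp h')), if_neg h])
    (by
      intro x i hi
      simp only [hi, if_true]
      by_cases hx : x ≤ l - 1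
      · simp only [hx, if_true]
        rw [T.hE]
        unfold al
        have q1 : ((x : ZMod l) = (i : ZMod l)) ↔ x = i := cast_inj' (by omega) (by omega)
        have q2 : ((x : ZMod l) = (i : ZMod l) + 1) ↔ x = i + 1 := by
          have := cast_inj' (l := l) (a := x) (b := i + 1) (by omega) (by omega)
          push_cast at this
          exact this
        simp only [q1, q2]
      · have h1 : ¬ x = i := by omega
        have h2 : ¬ x = i + 1 := by omega
        simp only [hx, h1, h2, if_false]
        simp)
    (by
      intro x i hi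
      simp only [hi, if_true]
      by_cases hx : x ≤ l - 1
      · simp only [hx, if_true]
        rw [T.hF]
        unfold al
        have q1 : ((x : ZMod l) = (i : ZMod l)) ↔ x = i := cast_inj' (by omega) (by omega)
        have q2 : ((x : ZMod l) = (i : ZMod l) + 1) ↔ x = i + 1 := by
          have := cast_inj' (l := l) (a := x) (b := i + 1) (by omega) (by omega)
          push_cast at this
          exact this
        simp only [q1, q2]
        congr 1
        push_cast
        ring
      · have h1 : ¬ x = i := by omega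
        have h2 : ¬ x = i + 1 := by omega
        simp only [hx, h1, h2, if_false]
        simp)
    (by
      intro x y
      by_cases hx : x ≤ l - 1
      · by_cases hy : y ≤ l - 1
        · simp only [hx, hy, if_true]
          exact T.hh _ _
        · simp only [hy, if_false, lie_zero]
      · simp only [hx, if_false, zero_lie])
  have hv : ∀ a : ZMod l, a.val ≤ l - 1 := by
    intro a
    have := ZMod.val_lt a
    omega
  have hd : ∀ a : ZMod l, e a.val a.val = T.h a := by
    intro a
    rw [he1]
    simp only [hv a, if_true]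
    rw [ZMod.natCast_zmod_val]
  have hgl : ∀ a b c d : ZMod l, ⁅e a.val b.val, e c.val d.val⁆
      = (if b = c then e a.val d.val else 0) - (if a = d then e c.val b.val else 0) := by
    intro a b c d
    rw [he3 _ _ _ _ (hv a) (hv b) (hv c) (hv d)]
    have q1 : (b.val = c.val) ↔ b = c := (ZMod.val_injective l).eq_iff
    have q2 : (a.val = d.val) ↔ a = d := (ZMod.val_injective l).eq_iff
    simp only [q1, q2]
  have hw : ∀ x y z : ZMod l, ⁅T.h z, e x.val y.val⁆
      = (((if z = x then 1 else 0) - (if z = y then 1 else 0) : ℤ) : ℂ) • e x.val y.val := by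
    intro x y z
    rw [← hd z, hgl]
    by_cases h1 : z = x
    · by_cases h2 : z = y
      · subst h1
        subst h2
        simp
      · subst h1
        simp [h2]
    · by_cases h2 : z = y
      · subst h2
        simp [h1]
      · simp [h1, h2]
  refine ⟨⟨fun a b => e a.val b.val, hgl, ?_⟩, hd, ?_⟩
  · intro x y β X hxy hX hpos h0
    refine hUP0 (ZMod l) V T.h T.types T.span x y hxy (e x.val y.val) (e y.val x.val)
      (hw x y) (hw y x) ?_ β X ?_ hpos h0
    · rw [hgl, if_pos rfl, if_pos rfl, hd, hd]
    · intro z
      rw [← hd z]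
      exact hX z
  · intro c hc
    have h1 := val_lt_of_ne (by omega) hc
    have h2 := val_succ (by omega) hc
    have h3 := he2 c.val h1
    simp only [h1, if_true] at h3
    rw [ZMod.natCast_zmod_val] at h3
    simp only [h2]
    exact h3

end Pool.Agent.Helper7.SQ
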