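import Pool.Agent.Helper84.SQ.GoalsB

/-!
# Separable indefinite quadratic integer programs: packet PLW
-/

namespace Pool.Agent.Helper7.SQ

open Pool.Agent.Helper84.SQ

theorem plw_floor_cases (m n : ℤ) (y : ℝ) (h1 : (n : ℝ) ≤ y) (h2 : y < n + 1) :
    0 ≤ ((n : ℝ) - m) * (2 * y - n - m - 1) := by
  rcases lt_trichotomy m n with h | h | h
  · have h3 : (m : ℝ) + 1 ≤ n := by exact_mod_cast h
    exact mul_nonneg (by linarith) (by linarith)
  · subst h
    simp
  · have h3 : (n : ℝ) + 1 ≤ m := by exact_mod_cast h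
    exact mul_nonneg_of_nonpos_of_nonpos (by linarith) (by linarith)

theorem plw : PlwStmt := by
  intro q h x hq
  have hq' : (0 : ℝ) ≤ q := by exact_mod_cast hq
  refine ⟨?_, ?_, ?_, ?_⟩
  · intro y
    have h1 := plw_floor_cases ⌊x⌋ ⌊y⌋ y (Int.floor_le y) (Int.lt_floor_add_one y)
    have h2 := mul_nonneg hq' h1
    have h3 : pl q h y - (pl q h x + sl q h x * (y - x)) =
        q * (((⌊y⌋ : ℝ) - ⌊x⌋) * (2 * y - ⌊y⌋ - ⌊x⌋ - 1)) := by
      unfold pl sl
      ring
    linarith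
  · intro k
    unfold pl sl
    rw [Int.floor_intCast]
    ring
  · intro k hk1 hk2
    have hk : k = ⌊x⌋ ∨ k = ⌊x⌋ + 1 := by omega
    rcases hk with hk | hk
    · rw [hk]
      unfold pl sl
      ring
    · rw [hk]
      unfold pl sl
      push_cast
      ring
  · intro N hqN hhN hxN
    obtain ⟨t, ht⟩ : ∃ t : ℝ, t = 2 ^ N := ⟨_, rfl⟩
    have ht1 : 1 ≤ t := by
      rw [ht]
      exact one_le_pow₀ (by norm_num)
    have hq2 : (q : ℝ) ≤ t := by
      rw [ht]
      exact_mod_cast hqN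
    have hh2 : |(h : ℝ)| ≤ t := by
      rw [ht]
      exact_mod_cast hhN
    have hx2 : |x| ≤ t := by
      rw [ht]
      exact hxN
    have hx3 := abs_le.1 hx2
    have hm1 : (⌊x⌋ : ℝ) ≤ t := (Int.floor_le x).trans hx3.2
    have hm2 : -t ≤ (⌊x⌋ : ℝ) := by
      have h1 : (-(2 : ℤ) ^ N) ≤ ⌊x⌋ := by
        rw [Int.le_floor]
        push_cast
        rw [← ht]
        exact hx3.1
      have h2 : ((-(2 : ℤ) ^ N : ℤ) : ℝ) ≤ (⌊x⌋ : ℝ) := by exact_mod_cast h1
      push_cast at h2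
      rw [ht]
      exact h2
    have hm3 : |2 * (⌊x⌋ : ℝ) + 1| ≤ 2 * t + 1 := by
      rw [abs_le]
      constructor <;> linarith
    have h4 : |sl q h x| ≤ t * (2 * t + 1) + t := by
      unfold sl
      refine (abs_add_le _ _).trans (add_le_add ?_ hh2)
      rw [abs_mul, abs_of_nonneg hq']
      exact mul_le_mul hq2 hm3 (abs_nonneg _) (by linarith)
    have h5 : (2 : ℝ) ^ (2 * N + 3) = 8 * t ^ 2 := by
      rw [ht, pow_add, pow_mul]
      rw [← pow_mul, ← pow_mul]
      rw [mul_comm N 2]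
      norm_num
      ring
    rw [h5]
    nlinarith

end Pool.Agent.Helper7.SQ
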